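import Pool.Agent.Helper59.MB.Goals3

/-!
# Packet MB-SAR (MP_49a1ce_an)
-/

set_option autoImplicit false

open MeasureTheory Filter Topology Finset

namespace Pool.Agent.Helper18.MB

open Pool.Agent.Helper59.MB

theorem t_SAR (hENB : S_ENB) (hCLO : S_CLO) (hCPX : S_CPX) (hZEB : S_ZEB) (hSQF : S_SQF) :
    S_SAR := by
  classical
  intro hS
  by_contra hcon
  obtain ⟨u, hu⟩ : ∃ u : ℕ → ℤ, u = fun n => ArithmeticFunction.moebius n := ⟨_, rfl⟩
  have hu1 : ∀ n, |u n| ≤ 1 := by
    intro n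
    rw [hu]
    exact ArithmeticFunction.abs_moebius_le_one
  obtain ⟨L, T, U, hD⟩ := hENB u hu1 (fun δ hδ h => hcon ⟨δ, hδ, by rw [← hu]; exact h⟩)
  have hv : ∀ n, vv u L T U n = u n ∨ vv u L T U n = 0 := by
    intro n
    unfold vv
    split_ifs
    · exact Or.inl rfl
    · exact Or.inr rfl
  have hv1 : ∀ n, |vv u L T U n| ≤ 1 := by
    intro n
    rcases hv n with h | h
    · rw [h]
      exact hu1 n
    · rw [h]
      norm_num
  obtain ⟨Y, _, _, T', f, x, hE, hf⟩ := hZEB _ hv1 (hCPX u L T U hu1 hD)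
  have hMD := hS Y T' hE f x
  have hlow : ∀ N : ℕ, 1 ≤ N → (1 / 4 : ℝ) ≤ (1 / (N : ℝ)) *
      ∑ n ∈ Finset.Icc 1 N, f (T'^[n] x) * ((ArithmeticFunction.moebius n : ℤ) : ℝ) := by
    intro N hN
    have hN0 : (1 : ℝ) ≤ N := by exact_mod_cast hN
    have h1 : ∀ n ∈ Finset.Icc 1 N, ((ArithmeticFunction.moebius n : ℤ) : ℝ) ^ 2 -
        (if vv u L T U n ≠ u n then 1 else 0) ≤
        f (T'^[n] x) * ((ArithmeticFunction.moebius n : ℤ) : ℝ) := by
      intro n _
      have e : ((ArithmeticFunction.moebius n : ℤ) : ℝ) = (u n : ℝ) := by rw [hu]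
      rw [hf n, e]
      by_cases hne : vv u L T U n = u n
      · rw [if_neg (not_not.2 hne), hne]
        nlinarith
      · rw [if_pos hne]
        have h0 : vv u L T U n = 0 := (hv n).resolve_left hne
        rw [h0]
        have h2 : |(u n : ℝ)| ≤ 1 := by exact_mod_cast hu1 n
        have h3 := abs_le.1 h2
        push_cast
        nlinarith
    have h2 := Finset.sum_le_sum h1
    rw [Finset.sum_sub_distrib] at h2
    have h3 := hSQF N
    have h4 : ∑ n ∈ Finset.Icc 1 N, (if vv u L T U n ≠ u n then (1 : ℝ) else 0) ≤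
        ((N + 1 : ℕ) : ℝ) / 8 := by
      refine le_trans ?_ (hCLO u L T U hD (N + 1))
      rw [← Finset.sum_filter, Finset.sum_const, nsmul_eq_mul, mul_one]
      have hfin : {n : ℕ | n < N + 1 ∧ vv u L T U n ≠ u n}.Finite :=
        (Set.finite_lt_nat (N + 1)).subset fun n hn => hn.1
      rw [← Set.ncard_coe_finset]
      refine Nat.cast_le.2 (Set.ncard_le_ncard ?_ hfin)
      intro n hn
      have hn' := Finset.mem_filter.1 (Finset.mem_coe.1 hn)
      exact ⟨Nat.lt_succ_of_le (Finset.mem_Icc.1 hn'.1).2, hn'.2⟩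
    rw [one_div_mul_eq_div, le_div_iff₀ (by linarith)]
    push_cast at h4
    linarith
  have := ge_of_tendsto hMD (Filter.eventually_atTop.2 ⟨1, fun N hN => hlow N hN⟩)
  norm_num at this

end Pool.Agent.Helper18.MB
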